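import Pool.Agent.Helper55.BT.NilLift
import Pool.Agent.Helper55.BT.NIL

/-!
# Corner-free sets in `(F_2^n)^2` given by bilinear equations and by nilpotent groups

Let `π` be a homomorphism from a nilpotent group `Γ` of class at most two to `F_2^n` (for instance, let
`Γ` be abelian, or an extraspecial or Heisenberg group), and let `P`, `Q`, `R` be finite subsets of `Γ`.
The set of the points `(π p, π q)` with `p ∈ P`, `q ∈ Q` and `p q ∈ R` is obtained by lifting the corner
problem to `Γ`. Examples are the sets `{(x, y) : φ(x) ψ(y) = χ(x + y)}`, where `φ`, `ψ`, `χ` are arbitrary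
functions from `F_2^n` to an arbitrary nilpotent group of class at most two, and the sets
`{(x, y) : F(x) + G(y) + H(x + y) = B(x, y)}`,
where `F, G, H` are arbitrary functions from `F_2^n` to an arbitrary abelian group and `B` is an
arbitrary (not necessarily symmetric) biadditive map; e.g. `B` can be any sum of monomials
`c x^(2^i) y^(2^j)` on the field with `2^n` elements. One may also intersect these sets with a set
`{(x, y) : P(x, y) ≠ 0}`, where `P(x, y) = ∑ a_i(x) b_i(y) c_i(x + y)` has `N` summands, the values of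
the arbitrary functions `a_i`, `b_i`, `c_i` being in a field of characteristic two. We show that such a
set of density `δ` contains a polynomial proportion of all corners, and that the power-saving bound
holds for all corner-free sets which are covered by `2^(c n)` sets of this kind, up to few points.

Proof. By the polynomial Freiman-Ruzsa theorem of Gowers, Green, Manners and Tao, applied modulo the
center of `Γ`, one reduces to homomorphisms with a central kernel, and then, as central extensions of
`F_2^n` are bilinear twists of abelian groups, to the sets `F(x) + G(y) + H(x + y) = B(x, y)`. If `B` is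
symmetric, it is a coboundary, and the equation is additive. In general Cauchy-Schwarz arguments show
that `B(x, y) = B(y, x)` for many `(x, y)`. The main tool is that a trilinear form over `F_2` with a large
bias has a small slice rank (up to a constant factor); the proof is elementary, by a potential
function on pairs of subspaces. So on a large subspace `B(x, y) - B(y, x)` has values in a small
subgroup, and there `B` is the sum of a symmetric map and of a biadditive map `β` with few values.
After the decomposition into the fibres of `β`, the equation is additive; it holds on a large box, which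
contains many points of the set. The slice rank method is applied to the intersection with this
box, using that the indicator function of a fibre of `β` has a small rank.
-/

set_option autoImplicit false

namespace Pool.Agent.Results.MP_db4732_co.BilinearTwists

open Finset

/-- `F_2^n` -/
abbrev V (n : ℕ) := Fin n → ZMod 2

/-- `A ⊆ (F_2^n)^2` contains no nontrivial corner `(x, y), (x, y + z), (x + z, y)`, `z ≠ 0`. -/
def CornerFree {n : ℕ} (A : Finset (V n × V n)) : Prop :=
  ∀ x y z : V n, (x, y) ∈ A → (x, y + z) ∈ A → (x + z, y) ∈ A → z = 0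

/-- The number of all triples `(x, y, z)` with `(x, y), (x, y + z), (x + z, y) ∈ A`; the trivial ones,
with `z = 0`, are counted. -/
def corners {n : ℕ} (A : Finset (V n × V n)) : ℕ :=
  #{t : V n × V n × V n | (t.1, t.2.1) ∈ A ∧ (t.1, t.2.1 + t.2.2) ∈ A ∧ (t.1 + t.2.2, t.2.1) ∈ A}

/-- the density of `E` in `(F_2^n)^2` -/
noncomputable def density {n : ℕ} (E : Finset (V n × V n)) : ℝ := (#E : ℝ) / 4 ^ n

/-- `{(x, y) : x ∈ X, y ∈ Y, x + y ∈ Z}` -/
def box {n : ℕ} (X Y Z : Finset (V n)) : Finset (V n × V n) :=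
  univ.filter fun p => p.1 ∈ X ∧ p.2 ∈ Y ∧ p.1 + p.2 ∈ Z

/-- `E` consists of the `(x, y)` with `F(x) + G(y) + H(x + y) = B(x, y)` and `P(x, y) ≠ 0`. Here `F`, `G`,
`H` are arbitrary functions from `F_2^n` to an arbitrary abelian group `K`, `B` is an arbitrary
biadditive map with values in `K`, and `P(x, y) = ∑_{i < N} a_i(x) b_i(y) c_i(x + y)` with arbitrary
functions `a_i`, `b_i`, `c_i` from `F_2^n` to a field of characteristic two. -/
def IsTwisted {n : ℕ} (N : ℕ) (E : Finset (V n × V n)) : Prop :=
  ∃ (K : Type) (_ : AddCommGroup K) (F G H : V n → K) (B : V n →+ V n →+ K)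
    (L : Type) (_ : Field L) (_ : CharP L 2) (a b c : Fin N → V n → L),
    ∀ x y, (x, y) ∈ E ↔ F x + G y + H (x + y) = B x y ∧ ∑ i, a i x * b i y * c i (x + y) ≠ 0

/-- For some homomorphism `π` from an abelian group `B` to `F_2^n` and some subsets `P`, `Q`, `R` of
`B` with at most `M 2^n` elements each, `E` consists of the points `(π p, π q)` with `p ∈ P`, `q ∈ Q`
and `p + q ∈ R`. -/
def IsLifted {n : ℕ} (M : ℝ) (E : Finset (V n × V n)) : Prop :=
  ∃ (B : Type) (_ : AddCommGroup B) (π : B →+ V n) (P Q R : Finset B),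
    (#P : ℝ) ≤ M * 2 ^ n ∧ (#Q : ℝ) ≤ M * 2 ^ n ∧ (#R : ℝ) ≤ M * 2 ^ n ∧
      ∀ x y, (x, y) ∈ E ↔ ∃ p ∈ P, ∃ q ∈ Q, p + q ∈ R ∧ π p = x ∧ π q = y

/-- `E` consists of the `(x, y)` with `φ(x) ψ(y) = χ(x + y)` and `P(x, y) ≠ 0`. Here `φ`, `ψ`, `χ` are
arbitrary functions from `F_2^n` to an arbitrary group in which all commutators are central, i.e. to a
nilpotent group of class at most two, and `P` is as in `IsTwisted`. -/
def IsNilEquation {n : ℕ} (N : ℕ) (E : Finset (V n × V n)) : Prop :=
  ∃ (Γ : Type) (_ : Group Γ) (φ ψ χ : V n → Γ)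
    (L : Type) (_ : Field L) (_ : CharP L 2) (a b c : Fin N → V n → L),
    (∀ g h k : Γ, g * h * g⁻¹ * h⁻¹ * k = k * (g * h * g⁻¹ * h⁻¹)) ∧
    ∀ x y, (x, y) ∈ E ↔ φ x * ψ y = χ (x + y) ∧ ∑ i, a i x * b i y * c i (x + y) ≠ 0

/-- For some homomorphism `π` to `F_2^n` from a group `Γ` in which all commutators are central (a
nilpotent group of class at most two), some subsets `P`, `Q`, `R` of `Γ` with at most `M 2^n` elements
each, and some `P(x, y) = ∑_{i < N} a_i(x) b_i(y) c_i(x + y)` with arbitrary functions `a_i`, `b_i`, `c_i`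
from `F_2^n` to a field of characteristic two, `E` consists of the points `(x, y) = (π p, π q)` with
`p ∈ P`, `q ∈ Q`, `p q ∈ R` and `P(x, y) ≠ 0`. -/
def IsNilLift {n : ℕ} (M : ℝ) (N : ℕ) (E : Finset (V n × V n)) : Prop :=
  ∃ (Γ : Type) (_ : Group Γ) (π : Γ → V n) (P Q R : Finset Γ)
    (L : Type) (_ : Field L) (_ : CharP L 2) (a b c : Fin N → V n → L),
    (∀ g h k : Γ, g * h * g⁻¹ * h⁻¹ * k = k * (g * h * g⁻¹ * h⁻¹)) ∧
    (∀ p q, π (p * q) = π p + π q) ∧
    (#P : ℝ) ≤ M * 2 ^ n ∧ (#Q : ℝ) ≤ M * 2 ^ n ∧ (#R : ℝ) ≤ M * 2 ^ n ∧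
      ∀ x y, (x, y) ∈ E ↔ (∃ p ∈ P, ∃ q ∈ Q, p * q ∈ R ∧ π p = x ∧ π q = y) ∧
        ∑ i, a i x * b i y * c i (x + y) ≠ 0

/-- **Corners in lifts to nilpotent groups.** There is an absolute constant `C` with the following
properties.
(1) The solution sets of the equations `F(x) + G(y) + H(x + y) = B(x, y)`, `B` biadditive, and of the
equations `φ(x) ψ(y) = χ(x + y)` in nilpotent groups of class at most two, intersected with `{P ≠ 0}`,
are nilpotent lifts with `M = 1`, and lifts to abelian groups are nilpotent lifts.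
Let `M, N ≥ 1`.
(2) Every nilpotent lift `E` of density `δ` has at least `(δ / (2 M N))^C 8^n` corners.
(3) If a corner-free set `A` is covered by `T` nilpotent lifts, with at most `s` points outside of `A`
each, then `|A| ≤ 2 T M N 4^n ((3 s + 2^n) / 4^n)^(1/C)`.
(4) For `s = 0`, that is, if a corner-free set `A` is a union of `T` nilpotent lifts, this is
`|A| ≤ 2 T M N 4^((1 - 1/(2 C)) n)`.
(5) A lift to an abelian group contains a box of density at least `(δ / (2 M))^C`. -/
theorem result : ∃ C : ℕ, 0 < C ∧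
    (∀ (n N : ℕ) (E : Finset (V n × V n)), IsTwisted N E → IsNilLift 1 N E) ∧
    (∀ (n N : ℕ) (E : Finset (V n × V n)), IsNilEquation N E → IsNilLift 1 N E) ∧
    (∀ (n : ℕ) (M : ℝ) (E : Finset (V n × V n)), IsLifted M E → IsNilLift M 1 E) ∧
    (∀ (n : ℕ) (M : ℝ) (N : ℕ) (E : Finset (V n × V n)), 1 ≤ M → 1 ≤ N → IsNilLift M N E →
      (density E / (2 * (M * N))) ^ C * 8 ^ n ≤ corners E) ∧
    (∀ (n T : ℕ) (M s : ℝ) (N : ℕ) (A : Finset (V n × V n)) (E : Fin T → Finset (V n × V n)),
      1 ≤ M → 1 ≤ N → CornerFree A → (∀ i, IsNilLift M N (E i)) →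
      (∀ i, (#(E i \ A) : ℝ) ≤ s) → (∀ p ∈ A, ∃ i, p ∈ E i) →
      (#A : ℝ) ≤ 2 * T * (M * N) * 4 ^ n * ((3 * s + 2 ^ n) / 4 ^ n) ^ (1 / (C : ℝ))) ∧
    (∀ (n T : ℕ) (M : ℝ) (N : ℕ) (A : Finset (V n × V n)) (E : Fin T → Finset (V n × V n)),
      1 ≤ M → 1 ≤ N → CornerFree A → (∀ i, IsNilLift M N (E i)) →
      (∀ p, p ∈ A ↔ ∃ i, p ∈ E i) →
      (#A : ℝ) ≤ 2 * T * (M * N) * 4 ^ ((1 - 1 / (2 * (C : ℝ))) * n)) ∧
    (∀ (n : ℕ) (M : ℝ) (E : Finset (V n × V n)), 1 ≤ M → IsLifted M E →
      ∃ X Y Z : Finset (V n), box X Y Z ⊆ E ∧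
        (density E / (2 * M)) ^ C * 4 ^ n ≤ #(box X Y Z)) := by
  obtain ⟨C, hC, hcorn, hbox⟩ := Pool.Agent.Helper55.BT.main2 Pool.Agent.Helper55.BT.NIL.main
  refine ⟨C, hC, fun n N E hE => ?_, fun n N E hE => ?_, fun n M E hE => ?_, hcorn, ?_, ?_, hbox⟩
  · exact Pool.Agent.Helper55.BT.nilLift_of_central E
      (Pool.Agent.Helper55.BT.centralLift_of_twisted Pool.Agent.Helper55.BT.HEI.main E hE)
  · exact Pool.Agent.Helper55.BT.nilLift_of_nilEq E hE
  · exact Pool.Agent.Helper55.BT.nilLift_of_central E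
      (Pool.Agent.Helper55.BT.centralLift_of_lifted E hE)
  · intro n T M s N A E hM hN hA hE hs hcov
    exact Pool.Agent.Helper55.BT.cover2 hC hM hN (fun E' hE' => hcorn n M N E' hM hN hE') T s A E hA
      hE hs hcov
  · intro n T M N A E hM hN hA hE hAE
    exact Pool.Agent.Helper55.BT.cover2' hC hM hN (fun E' hE' => hcorn n M N E' hM hN hE') T A E hA
      hE hAE

end Pool.Agent.Results.MP_db4732_co.BilinearTwists
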