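import Pool.Agent.Helper45.RC.Final

/-!
# Corner-free sets and decision trees with additive queries and many excluded rectangles

The points of `(F_2^n)^2` have three coordinates `x`, `y` and `x + y`. We consider sets of points which
are decided by a decision tree. Its queries are of two kinds: whether `F(x) + G(y) + H(x + y) = 0`, with
arbitrary functions `F`, `G`, `H` to an arbitrary abelian group, and whether `u ∈ P` and `v ∈ Q`, where
`u`, `v` are two of the three coordinates and `P`, `Q` are arbitrary sets. In the leaves one has, for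
instance, the answer yes or no, or again an additive equation. The number of queries of the first kind
and of positive answers to queries of the second kind is at most a small multiple of `n` on each path,
but the number of negative answers to queries of the second kind may be any multiple `t n` of `n`; so a
point in the set lies outside of up to `t n` rectangles. (A simple example of such sets is
`L \ (D_1 ∪ ... ∪ D_T)`, where `L` is given by an additive equation, `T ≤ t n` and the `D_i` are
rectangles; it is not a union of `2^(c n)` sets given by additive equations, in any obvious way.)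
We show that a decided set whose density is not exponentially small contains large boxes
`{(x, y) : x ∈ X, y ∈ Y, x + y ∈ Z}` and many corners, and we deduce the power-saving bound for all
corner-free sets which are covered by exponentially many decided sets, up to few points of the latter.

Proof. The main point is the following. Let `S` be a set of pairs `(u, v)` of density `σ`
outside of `T` rectangles `P_i × Q_i`. Then there is a box `X × Y` disjoint from all `P_i × Q_i` such
that `S ∩ (X × Y)` is still dense. Let `a(u)`, `b(v)` be the sets of the `i` with `u ∈ P_i`,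
`v ∈ Q_i`. If `a(u)` has at most `k` elements for many of the pairs in `S`, then one chooses the
most popular value `a_0` of `a(u)` and restricts `v` to `b(v) ∩ a_0 = ∅`. Otherwise, there is a point
`u_0` with more than `k` elements in `a(u_0)` such that `S` is dense in the set of the `(u, v)` with
`(u_0, v) ∈ S`; for these `v` the set `b(v)` is disjoint from `a(u_0)`, and so the rectangles
`P_i × Q_i` with `i ∈ a(u_0)` can be forgotten. After `T / (k + 1)` steps there is none left. We apply
this to all three pairs of coordinates. The queries of the first kind with negative answers are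
replaced by additive equations by means of characters; then the result on lifted sets
(`MP_db4732_co.LiftedSets`) applies.
-/

set_option autoImplicit false

namespace Pool.Agent.Results.MP_db4732_co.ExcludedRectangles

open Finset

/-- `F_2^n` -/
abbrev V (n : ℕ) := Fin n → ZMod 2

/-- `A ⊆ (F_2^n)^2` contains no nontrivial corner `(x, y), (x, y + z), (x + z, y)`, `z ≠ 0`. -/
def CornerFree {n : ℕ} (A : Finset (V n × V n)) : Prop :=
  ∀ x y z : V n, (x, y) ∈ A → (x, y + z) ∈ A → (x + z, y) ∈ A → z = 0

/-- The number of all triples `(x, y, z)` with `(x, y), (x, y + z), (x + z, y) ∈ A`; the trivial ones,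
with `z = 0`, are counted. -/
def corners {n : ℕ} (A : Finset (V n × V n)) : ℕ :=
  #{t : V n × V n × V n | (t.1, t.2.1) ∈ A ∧ (t.1, t.2.1 + t.2.2) ∈ A ∧ (t.1 + t.2.2, t.2.1) ∈ A}

/-- the density of `E` in `(F_2^n)^2` -/
noncomputable def density {n : ℕ} (E : Finset (V n × V n)) : ℝ := (#E : ℝ) / 4 ^ n

/-- `{(x, y) : x ∈ X, y ∈ Y, x + y ∈ Z}` -/
def box {n : ℕ} (X Y Z : Finset (V n)) : Finset (V n × V n) :=
  univ.filter fun p => p.1 ∈ X ∧ p.2 ∈ Y ∧ p.1 + p.2 ∈ Z

/-- `E` is the set of the solutions of an equation `F(x) + G(y) + H(x + y) = 0`, where `F`, `G`, `H`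
are arbitrary functions from `F_2^n` to an arbitrary abelian group. -/
def IsAdditive {n : ℕ} (E : Finset (V n × V n)) : Prop :=
  ∃ (K : Type) (_ : AddCommGroup K) (F G H : V n → K),
    ∀ x y, (x, y) ∈ E ↔ F x + G y + H (x + y) = 0

/-- For some homomorphism `π` from an abelian group `B` to `F_2^n` and some subsets `P`, `Q`, `R` of
`B` with at most `M 2^n` elements each, `E` consists of the points `(π p, π q)` with `p ∈ P`, `q ∈ Q`
and `p + q ∈ R`. For `M ≥ 1` all additive sets are examples. -/
def IsLifted {n : ℕ} (M : ℝ) (E : Finset (V n × V n)) : Prop :=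
  ∃ (B : Type) (_ : AddCommGroup B) (π : B →+ V n) (P Q R : Finset B),
    (#P : ℝ) ≤ M * 2 ^ n ∧ (#Q : ℝ) ≤ M * 2 ^ n ∧ (#R : ℝ) ≤ M * 2 ^ n ∧
      ∀ x y, (x, y) ∈ E ↔ ∃ p ∈ P, ∃ q ∈ Q, p + q ∈ R ∧ π p = x ∧ π q = y

/-- `D` is a rectangle `{(x, y) : u ∈ P, v ∈ Q}`, where `u`, `v` are two of `x`, `y`, `x + y`. -/
def IsRectangle {n : ℕ} (D : Finset (V n × V n)) : Prop :=
  ∃ P Q : Finset (V n), (∀ x y, (x, y) ∈ D ↔ x ∈ P ∧ y ∈ Q) ∨
    (∀ x y, (x, y) ∈ D ↔ x ∈ P ∧ x + y ∈ Q) ∨ (∀ x y, (x, y) ∈ D ↔ y ∈ P ∧ x + y ∈ Q)

/-- The set is decided by a decision tree. The queries are membership in an additive set or in a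
rectangle; in each leaf one has a lifted set with the bound `M` (for `M ≥ 1`, it may be empty or equal
to the whole space). On each path the number of additive queries and of positive answers to
rectangle queries is at most `s`, and the number of negative answers to rectangle queries is at most
`T`. -/
inductive Decided {n : ℕ} (M : ℝ) : ℕ → ℕ → Finset (V n × V n) → Prop
  | leaf {s T : ℕ} {E : Finset (V n × V n)} : IsLifted M E → Decided M s T E
  | additive {s T : ℕ} {E A B : Finset (V n × V n)} : IsAdditive E → Decided M s T A →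
      Decided M s T B → Decided M (s + 1) T ((E ∩ A) ∪ (B \ E))
  | rectangle {s T : ℕ} {D A B : Finset (V n × V n)} : IsRectangle D → Decided M s (T + 1) A →
      Decided M (s + 1) T B → Decided M (s + 1) (T + 1) ((D ∩ A) ∪ (B \ D))

theorem to_helper {n : ℕ} {M : ℝ} {s T : ℕ} {E : Finset (V n × V n)} (h : Decided M s T E) :
    Pool.Agent.Helper45.RC.Decided M s T E := by
  induction h with
  | leaf h => exact .leaf h
  | additive h _ _ h1 h2 => exact .additive h h1 h2
  | rectangle h _ _ h1 h2 => exact .rectangle h h1 h2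

/-- **Corners and decision trees.** There is an absolute constant `C` with the following properties.
Let `0 < ε ≤ 1 ≤ t`, put `c = (ε / t)^C / C`, and let `1 ≤ M ≤ 2^(c n)`, `s ≤ c n` and `T ≤ t n`. We
consider subsets `E` of `(F_2^n)^2` which are decided by a tree with at most `s` additive queries or
positive answers to rectangle queries, and at most `T` negative answers to rectangle queries on each
path, with lifted sets with the bound `M` in the leaves.
(1) If the density of `E` is at least `2^(-c n)` and `c n ≥ 1`, then `E` contains a box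
`{(x, y) : x ∈ X, y ∈ Y, x + y ∈ Z}` of density at least `2^(-ε n)`, and at least `2^(-ε n) 8^n`
corners.
(2) If a corner-free set `A` is covered by `K` such sets, with at most `2^(-ε n) 4^n` points
outside of `A` each, then `|A| ≤ 2 K 2^(-c n) 4^n`.
(3) In particular, all sets `L \ (D_1 ∪ ... ∪ D_T)`, with an additive set `L` and rectangles `D_i`,
are decided by such a tree. -/
theorem result : ∃ C : ℕ, 0 < C ∧ ∀ (n s T : ℕ) (ε t M c : ℝ), 0 < ε → ε ≤ 1 → 1 ≤ t →
    c = (ε / t) ^ C / C → 1 ≤ M → M ≤ (2 : ℝ) ^ (c * n) → (s : ℝ) ≤ c * n → (T : ℝ) ≤ t * n →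
    (∀ E : Finset (V n × V n), Decided M s T E → 1 ≤ c * n → (2 : ℝ) ^ (-(c * n)) ≤ density E →
      (∃ X Y Z : Finset (V n), box X Y Z ⊆ E ∧ (2 : ℝ) ^ (-(ε * n)) ≤ density (box X Y Z)) ∧
      (2 : ℝ) ^ (-(ε * n)) * 8 ^ n ≤ corners E) ∧
    (∀ (K : ℕ) (A : Finset (V n × V n)) (E : Fin K → Finset (V n × V n)), CornerFree A →
      (∀ i, Decided M s T (E i)) → (∀ i, (#(E i \ A) : ℝ) ≤ (2 : ℝ) ^ (-(ε * n)) * 4 ^ n) →
      (∀ p ∈ A, ∃ i, p ∈ E i) → (#A : ℝ) ≤ 2 * K * (2 : ℝ) ^ (-(c * n)) * 4 ^ n) ∧
    (∀ (L E : Finset (V n × V n)) (D : Fin T → Finset (V n × V n)), IsAdditive L →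
      (∀ i, IsRectangle (D i)) → (∀ p, p ∈ E ↔ p ∈ L ∧ ∀ i, p ∉ D i) →
      1 ≤ s → Decided M s T E) := by
  classical
  refine ⟨Pool.Agent.Helper45.RC.bigD, by have := Pool.Agent.Helper45.RC.bigD_ge; omega, ?_⟩
  intro n s T ε t M c hε hε1 ht hc hM hM2 hs hT
  refine ⟨fun E hE hn hd => ?_, fun K A E hA hE hEA hcov => ?_, fun L E D hL hD hE hs1 => ?_⟩
  · obtain ⟨⟨X, Y, Z, h1, h2⟩, h3, -⟩ :=
      Pool.Agent.Helper45.RC.decided_box hε hε1 ht hc hM hM2 hs hT (to_helper hE) hn hd
    have h4 : (2 : ℝ) ^ (-(ε * n)) ≤ (2 : ℝ) ^ (-(ε * n / 2)) := by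
      refine Real.rpow_le_rpow_of_exponent_le (by norm_num) ?_
      have : 0 ≤ ε * n := by positivity
      linarith
    exact ⟨⟨X, Y, Z, h1, h4.trans h2⟩,
      (mul_le_mul_of_nonneg_right h4 (by positivity)).trans h3⟩
  · exact Pool.Agent.Helper45.RC.decided_cover hε hε1 ht hc hM hM2 hs hT A E hA
      (fun i => to_helper (hE i)) hEA hcov
  · have hemp : ∀ s T : ℕ, Decided (n := n) M s T ∅ := fun s T =>
      .leaf ⟨V n, inferInstance, AddMonoidHom.id _, ∅, ∅, ∅, by simp; positivity,
        by simp; positivity, by simp; positivity, fun x y => by simp⟩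
    obtain ⟨s, rfl⟩ : ∃ s', s = s' + 1 := ⟨s - 1, by omega⟩
    have hLl : IsLifted M L := by
      obtain ⟨B, i, π, P, Q, R, hP, hQ, hR, h⟩ :=
        Pool.Agent.Helper45.AE.isLifted_of_additive L hL
      have h2 : (1 : ℝ) * 2 ^ n ≤ M * 2 ^ n := by gcongr
      exact ⟨B, i, π, P, Q, R, hP.trans h2, hQ.trans h2, hR.trans h2, h⟩
    clear hT hc hM2 hs
    induction T generalizing E with
    | zero =>
      have : E = L := by
        ext p; rw [hE]; simp
      rw [this]; exact .leaf hLl
    | succ T ih =>
      have h1 := ih (L.filter fun p => ∀ i : Fin T, p ∉ D i.succ) (fun i => D i.succ)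
        (fun i => hD _) (fun p => by rw [mem_filter])
      have h2 := Decided.rectangle (hD 0) (hemp s (T + 1)) h1
      have h3 : E = (D 0 ∩ ∅) ∪ ((L.filter fun p => ∀ i : Fin T, p ∉ D i.succ) \ D 0) := by
        ext p
        rw [hE]
        simp only [inter_empty, empty_union, mem_sdiff, mem_filter]
        constructor
        · rintro ⟨h4, h5⟩
          exact ⟨⟨h4, fun i => h5 _⟩, h5 0⟩
        · rintro ⟨⟨h4, h5⟩, h6⟩
          exact ⟨h4, fun i => Fin.cases h6 h5 i⟩
      rw [h3]; exact h2

end Pool.Agent.Results.MP_db4732_co.ExcludedRectangles
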