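import Pool.Agent.Helper41.Corner.Struct
import Pool.Agent.Helper41.Corner.Lower

/-!
# Corner-free sets with lifts to a group with unique square roots

Let `H` be a group in which squaring is injective: a torsion-free abelian or nilpotent group, a free
group, a bi-orderable group, a finite group of odd order. We consider the sets `A ⊆ (F_2^n)^2` on
which an equation `φ(x) ψ(y) = χ(x + y)` holds, where `φ`, `ψ`, `χ` are arbitrary maps from `F_2^n` to
`H`. The largest known corner-free sets in `(F_2^n)^2`, with `(2 √3 - o(1))^n` elements, are of this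
form, with `H = ℤ^n` and with `φ(x) ≡ x`, `ψ(y) ≡ y`, `χ(s) ≡ s` modulo 2 (integer lifts).

* If none of the values of one of the three maps is taken more than `m` times, then
  `|A|^6 ≤ m 2^{11 n}`. In particular, every set with integer lifts (more generally, with an injective
  `φ`, `ψ` or `χ`), corner-free or not, has at most `2^{11 n / 6} = 3.563...^n` elements, and the
  corner-free ones among them can have `c^n` elements, for all `c < 2 √3 = 3.464...`.
* If `|A| ≥ δ 4^n`, then `φ` and `ψ` are constant on a part of `A` with at least `(δ / 4)^13 4^n`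
  elements.
* A corner-free set which is the set of all solutions of an equation of this form, or a union of `T`
  such sets, has at most `5 T 4^{0.997 n}` elements.

Proof of the first part. Count the configurations of three pairs of points of `A` in the same row,
`(x, y), (x, y')`; `(x₁, y), (x₁, y')`; `(x₂, y), (x₂, w)` with `x₂ + w = x + y'`. The Cauchy-Schwarz
inequality and a three-fold version of it bound their number from below. On the other hand such a
configuration is determined, up to `m` possibilities, by `x, x₁ + y, x₁ + y', w`: one knows `y + y'`,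
`ψ(y)⁻¹ ψ(y')` and `x₂ + y`, and gets an equation `(μ ψ(y))² = c` with known `μ` and `c`. (This is the
scheme of the sums-differences inequality of Katz and Tao; the relation between the differences is
replaced by the relations in `F_2^n`.)
-/

set_option autoImplicit false

namespace Pool.Agent.Results.MP_db4732_co.InjectiveLifts

open Finset

universe u

/-- `F_2^n` -/
abbrev V (n : ℕ) := Fin n → ZMod 2

/-- `A ⊆ (F_2^n)^2` contains no nontrivial corner `(x, y), (x, y + z), (x + z, y)`, `z ≠ 0`. -/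
def CornerFree {n : ℕ} (A : Finset (V n × V n)) : Prop :=
  ∀ x y z : V n, (x, y) ∈ A → (x, y + z) ∈ A → (x + z, y) ∈ A → z = 0

/-- the rows (values of `x`) which `A` meets -/
def rows {n : ℕ} (A : Finset (V n × V n)) : Finset (V n) := A.image Prod.fst

/-- the columns (values of `y`) which `A` meets -/
def cols {n : ℕ} (A : Finset (V n × V n)) : Finset (V n) := A.image Prod.snd

/-- the diagonals (values of `x + y`) which `A` meets -/
def diags {n : ℕ} (A : Finset (V n × V n)) : Finset (V n) := A.image fun p => p.1 + p.2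

/-- `f` takes each of its values at most `m` times on `S`. -/
def FibersLE {n : ℕ} {H : Type u} (f : V n → H) (S : Finset (V n)) (m : ℕ) : Prop :=
  ∀ a, Set.ncard {x | x ∈ S ∧ f x = a} ≤ m

/-- Squaring is injective in the group `H`. -/
def UniqueRoots (H : Type u) [Group H] : Prop := ∀ u v : H, u * u = v * v → u = v

/-- `E` is the set of all solutions of an equation `φ(x) ψ(y) = χ(x + y)`, where `φ, ψ, χ` are maps
from `F_2^n` to a group with injective squaring. -/
def IsSolutionSet {n : ℕ} (E : Finset (V n × V n)) : Prop :=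
  ∃ (H : Type u) (_ : Group H) (φ ψ χ : V n → H), UniqueRoots H ∧
    ∀ x y, (x, y) ∈ E ↔ φ x * ψ y = χ (x + y)

/-- `f` lifts `F_2^n` to `ℤ^n`. -/
def IsLift {n : ℕ} (f : V n → (Fin n → ℤ)) : Prop := ∀ x i, ((f x i : ℤ) : ZMod 2) = x i

/-- `A` has integer lifts: `φ(x) + ψ(y) = χ(x + y)` for `(x, y) ∈ A`, where `φ(x)`, `ψ(x)`, `χ(x)` are
integer vectors congruent to `x` modulo 2. -/
def HasIntegerLifts {n : ℕ} (A : Finset (V n × V n)) : Prop :=
  ∃ φ ψ χ : V n → (Fin n → ℤ), IsLift φ ∧ IsLift ψ ∧ IsLift χ ∧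
    ∀ p ∈ A, φ p.1 + ψ p.2 = χ (p.1 + p.2)

/-- **Theorem.** Let `H` be a group with injective squaring, and let `A ⊆ (F_2^n)^2` satisfy
`φ(x) ψ(y) = χ(x + y)` for all `(x, y) ∈ A`, with `φ, ψ, χ : F_2^n → H`.
(1) If `A` meets at most `N` rows, columns and diagonals each, and if `φ` takes no value more than `m`
times on the rows of `A`, or `ψ` on its columns, or `χ` on its diagonals, then `|A|^6 ≤ m N^11`.
(2) If `|A| ≥ δ 4^n` then there are `a, b` such that `φ(x) = a` and `ψ(y) = b` for at least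
`(δ / 4)^13 4^n` points `(x, y)` of `A`.
(3) If a corner-free set is a union of `T` solution sets of equations of this form, then it has at
most `5 T 4^{(1 - 0.003) n}` elements.
(4) A set which is covered by `T` sets with integer lifts has at most `T 4^{(1 - 1/12) n}` elements,
while for all `c < 2 √3` and all large `n` there is a corner-free set with integer lifts which has at
least `c^n` elements. -/
theorem result :
    (∀ (n N m : ℕ) (H : Type u) [Group H] (φ ψ χ : V n → H) (A : Finset (V n × V n)),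
      UniqueRoots H → (∀ p ∈ A, φ p.1 * ψ p.2 = χ (p.1 + p.2)) →
      #(rows A) ≤ N → #(cols A) ≤ N → #(diags A) ≤ N →
      (FibersLE φ (rows A) m ∨ FibersLE ψ (cols A) m ∨ FibersLE χ (diags A) m) →
      #A ^ 6 ≤ m * N ^ 11) ∧
    (∀ (n : ℕ) (H : Type u) [Group H] (φ ψ χ : V n → H) (A : Finset (V n × V n)) (δ : ℝ),
      UniqueRoots H → (∀ p ∈ A, φ p.1 * ψ p.2 = χ (p.1 + p.2)) → 0 < δ → δ * 4 ^ n ≤ #A →
      ∃ a b, (δ / 4) ^ 13 * 4 ^ n ≤ Set.ncard {p | p ∈ A ∧ φ p.1 = a ∧ ψ p.2 = b}) ∧
    (∀ (n T : ℕ) (A : Finset (V n × V n)) (E : Fin T → Finset (V n × V n)), CornerFree A →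
      (∀ i, IsSolutionSet.{u} (E i)) → (∀ p, p ∈ A ↔ ∃ i, p ∈ E i) →
      (#A : ℝ) ≤ 5 * T * 4 ^ ((1 - 0.003 : ℝ) * n)) ∧
    (∀ (n T : ℕ) (A : Finset (V n × V n)) (E : Fin T → Finset (V n × V n)),
      (∀ i, HasIntegerLifts (E i)) → (∀ p ∈ A, ∃ i, p ∈ E i) →
      (#A : ℝ) ≤ T * 4 ^ ((1 - 1 / 12 : ℝ) * n)) ∧
    (∀ c : ℝ, 0 ≤ c → c < 2 * Real.sqrt 3 → ∃ n₀ : ℕ, ∀ n, n₀ ≤ n →
      ∃ A : Finset (V n × V n), CornerFree A ∧ HasIntegerLifts A ∧ c ^ n ≤ #A) := by
  classical
  have H1 : ∀ (n N m : ℕ) (H : Type u) [Group H] (φ ψ χ : V n → H) (A : Finset (V n × V n)),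
      UniqueRoots H → (∀ p ∈ A, φ p.1 * ψ p.2 = χ (p.1 + p.2)) →
      #(rows A) ≤ N → #(cols A) ≤ N → #(diags A) ≤ N →
      (FibersLE φ (rows A) m ∨ FibersLE ψ (cols A) m ∨ FibersLE χ (diags A) m) →
      #A ^ 6 ≤ m * N ^ 11 := by
    intro n N m H _ φ ψ χ A hsq hA hr hc hd hm
    exact Pool.Agent.Helper41.Corner.count_all hsq Pool.Agent.Helper41.Corner.add_self_V A φ ψ χ
      hA N m hr hc hd hm
  have H0 : ∀ (n N m : ℕ) (φ ψ χ : V n → (Fin n → ℤ)) (A : Finset (V n × V n)),
      (∀ p ∈ A, φ p.1 + ψ p.2 = χ (p.1 + p.2)) →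
      #(rows A) ≤ N → #(cols A) ≤ N → #(diags A) ≤ N →
      (∀ a, Set.ncard {x | x ∈ rows A ∧ φ x = a} ≤ m) → #A ^ 6 ≤ m * N ^ 11 := by
    intro n N m φ ψ χ A hA hr hc hd hm
    refine Pool.Agent.Helper41.Corner.count_all (H := Multiplicative (Fin n → ℤ)) ?_
      Pool.Agent.Helper41.Corner.add_self_V A (fun x => Multiplicative.ofAdd (φ x))
      (fun x => Multiplicative.ofAdd (ψ x)) (fun x => Multiplicative.ofAdd (χ x)) ?_
      N m hr hc hd (Or.inl ?_)
    · intro u v h
      have h' : (Multiplicative.toAdd u : Fin n → ℤ) + Multiplicative.toAdd u =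
        Multiplicative.toAdd v + Multiplicative.toAdd v := congrArg Multiplicative.toAdd h
      refine Multiplicative.toAdd.injective ?_
      funext i
      have := congrFun h' i
      simp only [Pi.add_apply] at this
      omega
    · intro p hp
      rw [← hA p hp]
      rfl
    · intro a
      exact hm (Multiplicative.toAdd a)
  refine ⟨H1, ?_, ?_, ?_, ?_⟩
  · intro n H _ φ ψ χ A δ hsq hA hδ hδA
    have e1 : ((Fintype.card (V n) : ℕ) : ℝ) ^ 2 = 4 ^ n := by
      rw [Pool.Agent.Helper41.Corner.card_V]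
      push_cast
      rw [← pow_mul, mul_comm, pow_mul]
      norm_num
    obtain ⟨a, b, h⟩ := Pool.Agent.Helper41.Corner.exists_piece hsq
      Pool.Agent.Helper41.Corner.add_self_V A φ ψ χ hA δ hδ (by rw [e1]; exact hδA)
    refine ⟨a, b, ?_⟩
    rw [e1] at h
    refine h.trans (le_of_eq ?_)
    congr 1
    rw [← Set.ncard_coe_finset]
    congr 1
    ext p
    simp [Pool.Agent.Helper41.Corner.piece]
  · intro n T A E hA hE hAE
    have h1 : A ⊆ univ.biUnion E := fun p hp => by
      obtain ⟨i, hi⟩ := (hAE p).1 hp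
      exact mem_biUnion.2 ⟨i, mem_univ _, hi⟩
    have h2 : (#A : ℝ) ≤ ∑ i, (#(E i) : ℝ) := by
      exact_mod_cast (Finset.card_le_card h1).trans Finset.card_biUnion_le
    have h3 : ∀ i, (#(E i) : ℝ) ≤ 5 * 4 ^ ((1 - 0.003 : ℝ) * n) := by
      intro i
      obtain ⟨H, _, φ, ψ, χ, hsq, hEi⟩ := hE i
      refine Pool.Agent.Helper41.Corner.cornerFree_small hsq (E i) φ ψ χ hEi ?_
      intro x y z a1 a2 a3
      exact hA x y z ((hAE _).2 ⟨i, a1⟩) ((hAE _).2 ⟨i, a2⟩) ((hAE _).2 ⟨i, a3⟩)
    refine h2.trans ((Finset.sum_le_sum fun i _ => h3 i).trans (le_of_eq ?_))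
    rw [Finset.sum_const, Finset.card_univ, Fintype.card_fin, nsmul_eq_mul]
    ring
  · intro n T A E hE hAE
    have h1 : A ⊆ univ.biUnion E := fun p hp => by
      obtain ⟨i, hi⟩ := hAE p hp
      exact mem_biUnion.2 ⟨i, mem_univ _, hi⟩
    have h2 : (#A : ℝ) ≤ ∑ i, (#(E i) : ℝ) := by
      exact_mod_cast (Finset.card_le_card h1).trans Finset.card_biUnion_le
    have h3 : ∀ i, (#(E i) : ℝ) ≤ 4 ^ ((1 - 1 / 12 : ℝ) * n) := by
      intro i
      obtain ⟨φ, ψ, χ, hφ, hψ, hχ, hEi⟩ := hE i
      have hinj : Function.Injective φ := by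
        intro x y hxy
        funext j
        rw [← hφ x j, ← hφ y j, hxy]
      have hcard : ∀ S : Finset (V n), #S ≤ 2 ^ n := by
        intro S
        rw [← Pool.Agent.Helper41.Corner.card_V n]
        exact Finset.card_le_univ _
      have h4 := H0 n (2 ^ n) 1 φ ψ χ (E i) hEi (hcard _) (hcard _) (hcard _) (by
        intro a
        rw [Set.ncard_le_one_iff]
        intro x y hx hy
        exact hinj (hx.2.trans hy.2.symm))
      have h5 : ((#(E i) : ℝ)) ^ 6 ≤ ((2 : ℝ) ^ n) ^ 11 := by
        have : #(E i) ^ 6 ≤ (2 ^ n) ^ 11 := by rwa [one_mul] at h4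
        exact_mod_cast this
      refine le_of_pow_le_pow_left₀ (n := 6) (by norm_num) (by positivity) (h5.trans (le_of_eq ?_))
      rw [← Real.rpow_natCast ((4 : ℝ) ^ ((1 - 1 / 12 : ℝ) * n)), ← Real.rpow_mul (by norm_num),
        show (4 : ℝ) = (2 : ℝ) ^ (2 : ℝ) by norm_num, ← Real.rpow_mul (by norm_num),
        ← Real.rpow_natCast 2 n, ← Real.rpow_natCast ((2 : ℝ) ^ (n : ℝ)),
        ← Real.rpow_mul (by norm_num)]
      congr 1
      push_cast
      ring
    refine h2.trans ((Finset.sum_le_sum fun i _ => h3 i).trans (le_of_eq ?_))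
    rw [Finset.sum_const, Finset.card_univ, Fintype.card_fin, nsmul_eq_mul]
  · intro c hc0 hc
    obtain ⟨n0, h⟩ := Pool.Agent.Helper41.Corner.exists_cornerFree_lift 2 c hc0 (by
      refine hc.trans_le (le_of_eq ?_)
      push_cast
      ring)
    refine ⟨n0, fun n hn => ?_⟩
    obtain ⟨A, hA, ⟨φ, ψ, χ, h1, h2, h3, h4⟩, hAc⟩ := h n hn
    exact ⟨A, hA, ⟨φ, ψ, χ, fun x i => congrFun (h1 x) i, fun x i => congrFun (h2 x) i,
      fun x i => congrFun (h3 x) i, h4⟩, hAc⟩

end Pool.Agent.Results.MP_db4732_co.InjectiveLifts
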