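import Pool.Agent.Helper46.Corner.CoverF2
import Pool.Agent.Helper46.Corner.Data5

/-!
# Larger corner-free sets in `(F_2^n)^2`

For all large `n` the group `(F_2^n)^2` is a union of at most `1.15345^n` corner-free sets, one of
which has at least `(4 / 1.15345)^n > (3.4678)^n` elements. Here `1.15345 < 2 / √3 = 1.15470...`, so these
sets are larger, by an exponential factor, than the sets with `(2 √3 - o(1))^n = 3.46410...^n`
elements which come from integer lifts.

Proof. The addition table of `F_2^5` has a subset of 441 cells which is rigid: its cells can be deleted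
one after the other such that each cell is, at the moment of its deletion and in one of its three
roles, not in a nontrivial corner (found by a computer search, checked by the kernel). Hence the words
of one type over this alphabet form a rigid set in `(F_2^(5 N))^2`. For the best distribution on the
cells this set is much larger than its projections suggest; a random linear map compresses the
projections, and a product of the three rotations of the set makes the three projections equal.
-/

namespace Pool.Agent.Results.MP_db4732_co.LargerCornerFreeSets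

open Pool.Agent.Helper46.Corner

/-- `A ⊆ G × G` contains no nontrivial corner `(x,y), (x,y+z), (x+z,y)`, `z ≠ 0`. -/
def NoCorner {G : Type} [AddCommGroup G] (A : Finset (G × G)) : Prop :=
  ∀ x y z : G, z ≠ 0 → ¬ ((x, y) ∈ A ∧ (x, y + z) ∈ A ∧ (x + z, y) ∈ A)

/-- **Theorem.** We have `1.15345 < 2 / √3`, and for all large `n` the group `(F_2^n)^2` is a union of
at most `1.15345^n` corner-free sets, one of which has at least `(4 / 1.15345)^n` elements, where
`4 / 1.15345 > 3.4678 > 2 √3`. -/
theorem result :
    (1.15345 : ℝ) < 2 / Real.sqrt 3 ∧ (2 * Real.sqrt 3 < (3.4678 : ℝ) ∧ (3.4678 : ℝ) < 4 / 1.15345) ∧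
    ∃ n0 : ℕ, ∀ n : ℕ, n0 ≤ n →
      ∃ 𝒜 : Finset (Finset ((Fin n → ZMod 2) × (Fin n → ZMod 2))),
        (∀ A ∈ 𝒜, NoCorner A) ∧ (𝒜.card : ℝ) ≤ (1.15345 : ℝ) ^ n ∧ (∀ p, ∃ A ∈ 𝒜, p ∈ A) ∧
          ∃ A ∈ 𝒜, ((4 : ℝ) / 1.15345) ^ n ≤ A.card := by
  have h3 : Real.sqrt 3 ^ 2 = 3 := Real.sq_sqrt (by norm_num)
  have hs : 0 < Real.sqrt 3 := by positivity
  refine ⟨?_, ⟨?_, by norm_num⟩, ?_⟩
  · rw [lt_div_iff₀ hs]
    nlinarith
  · nlinarith
  · refine exists_cover (b := ((1153439 : ℕ) : ℝ) / ((1000000 : ℕ) : ℝ)) (c := 1.15345)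
      (by norm_num) (by norm_num) ?_
    obtain ⟨n0, h⟩ := Data5.main_cert
    refine ⟨n0, fun n hn => ?_⟩
    obtain ⟨S, hS, hc⟩ := h n hn
    refine ⟨S, hS, rate_of_pow (p := 505) (q := 302) (by norm_num) (by norm_num) ?_ hc⟩
    exact rate_num (by norm_num) (by norm_num) (by decide +kernel)

end Pool.Agent.Results.MP_db4732_co.LargerCornerFreeSets
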